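import Pool.Agent.Lib.MP_acafa7_al.MS.Iface3

/-! Module G3 (helper83): solvable subgroups with finite torsion subgroups -/

namespace MSG.H83

open MSG
open scoped commutatorElement

variable {Γ : Type} [Group Γ]

/-- derived series inside the ambient group -/
def DS (H : Subgroup Γ) : ℕ → Subgroup Γ
  | 0 => H
  | n + 1 => ⁅DS H n, DS H n⁆

theorem ds_eq_map (H : Subgroup Γ) (n : ℕ) : DS H n = (derivedSeries ↥H n).map H.subtype := by
  induction n with
  | zero => rw [DS, derivedSeries_zero, ← MonoidHom.range_eq_map, Subgroup.range_subtype]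
  | succ n ih =>
    rw [DS, derivedSeries_succ, Subgroup.map_commutator, ih]

theorem ds_comm (H : Subgroup Γ) (n : ℕ) : DS ⁅H, H⁆ n = DS H (n + 1) := by
  induction n with
  | zero => rfl
  | succ n ih => rw [DS, ih]; rfl

theorem comm_le (H : Subgroup Γ) : ⁅H, H⁆ ≤ H := by
  rw [Subgroup.commutator_le]
  intro x hx y hy
  rw [commutatorElement_def]
  exact H.mul_mem (H.mul_mem (H.mul_mem hx hy) (H.inv_mem hx)) (H.inv_mem hy)

theorem g3 (hA : G3AStatement) (hB : G3BStatement) (hC : G3CStatement) : G3Statement := by
  intro Γ _ hPN hPB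
  have key : ∀ n : ℕ, ∀ H : Subgroup Γ, DS H n = ⊥ → Group.IsSolvable H → TorF H →
      (H : Set Γ).Finite ∨ VZ1 H ∨ VZ2 H := by
    intro n
    induction n with
    | zero =>
      intro H h0 _ _
      left
      have h1 : H = ⊥ := h0
      rw [h1]
      simp
    | succ n ih =>
      intro H h0 hsol htor
      have hKH := comm_le H
      have hds : DS ⁅H, H⁆ n = ⊥ := by rw [ds_comm]; exact h0
      have hsolK : Group.IsSolvable (⁅H, H⁆ : Subgroup Γ) := by
        have := hsol
        exact Group.isSolvable_of_isSolvable_injective (Subgroup.inclusion_injective hKH)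
      have htorK : TorF (⁅H, H⁆ : Subgroup Γ) := fun F hF => htor F (hF.trans hKH)
      have hnorm : ∀ h ∈ H, ∀ k ∈ (⁅H, H⁆ : Subgroup Γ), h * k * h⁻¹ ∈ (⁅H, H⁆ : Subgroup Γ) := by
        intro h hh k hk
        have h1 : ⁅h, k⁆ ∈ (⁅H, H⁆ : Subgroup Γ) :=
          Subgroup.commutator_mem_commutator hh (hKH hk)
        have h2 : h * k * h⁻¹ = ⁅h, k⁆ * k := by
          rw [commutatorElement_def]; group
        rw [h2]
        exact Subgroup.mul_mem _ h1 hk
      rcases ih _ hds hsolK htorK with hfin | h1 | h2
      · by_cases hinf : ∃ a ∈ H, InfO a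
        · right
          refine hC Γ hPN hPB H _ hsol hKH hnorm hfin ?_ hinf
          intro x hx y hy
          have := Subgroup.commutator_mem_commutator hx hy
          rwa [commutatorElement_def] at this
        · left
          refine htor H le_rfl ?_
          intro x hx
          push Not at hinf
          have h3 := hinf x hx
          unfold InfO at h3
          push Not at h3
          obtain ⟨m, hm1, hm2⟩ := h3
          refine ⟨m.natAbs, Int.natAbs_pos.mpr hm2, ?_⟩
          rcases Int.natAbs_eq m with h4 | h4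
          · rw [h4] at hm1
            rwa [zpow_natCast] at hm1
          · rw [h4, zpow_neg, inv_eq_one, zpow_natCast] at hm1
            exact hm1
      · exact Or.inr (hB Γ hPN hPB H _ hsol hKH hnorm h1)
      · exact Or.inr (Or.inr (hA Γ hPN H _ hKH hnorm h2))
  intro H hsol htor
  obtain ⟨n, hn⟩ := hsol
  refine key n H ?_ ⟨n, hn⟩ htor
  rw [ds_eq_map, hn, Subgroup.map_bot]

end MSG.H83
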